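import Mathlib
import Pool.Agent.Lib.MP_6bc78b_nt.MS.P1.PT
import Pool.Agent.Lib.MP_6bc78b_nt.MS.P5.Iface

/-! Project MS, Part V, chapter PTU: the pointwise inequality, uniformly in `lam`. -/

set_option autoImplicit false

open Complex Filter Topology MeasureTheory Set

namespace Pool.Agent.Lib.MP_6bc78b_nt.MS.P5.H27

/-- **PTU** -/
theorem ptu (hRH : RiemannHypothesis) : P5.PtuStatement := by
  obtain ⟨C, hC, h⟩ := P1.PT.pt_uniform hRH (δ := 1 / 10) (by norm_num) (by norm_num)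
  refine ⟨C, 6, hC, by norm_num, fun T lam hT hlam hlam1 γ hγ => ?_⟩
  exact h T lam γ hT hlam (by linarith) hγ.1 hγ.2.1

end Pool.Agent.Lib.MP_6bc78b_nt.MS.P5.H27
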